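import Pool.Agent.Lib.MP_100a6c_lc.IfaceB

/-!
# The rule for the club `C`
-/

universe u v

open Cardinal
open scoped symmDiff

namespace Pool.Agent.Lib.MP_100a6c_lc.H54

open BName

theorem cl3 (h1 : CL1Statement.{u}) (h2 : CL2Statement.{u}) : CL3Statement.{u} := by
  classical
  intro B _ c hc Γ H C I A hA hC
  obtain ⟨cl, hcl⟩ := h1 B c hc Γ H C I A hA.mem hC
  by_cases hI : Nonempty I
  swap
  · exact ⟨fun _ => ∅, fun _ => by simp, fun J hJ => (hI ⟨hJ.some⟩).elim⟩
  let i0 : I := Classical.arbitrary I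
  -- enumerations of the members
  have h3 : ∀ F : Finset I, ∃ t : (Order.succ c).ord.ToType → I, F.Nonempty →
      ∀ z, Γ ⊓ bmem z (cl F) ≤ ⨆ y, beq z (A (t y)) := by
    intro F
    by_cases hF : F.Nonempty
    swap
    · exact ⟨fun _ => i0, fun h => (hF h).elim⟩
    have h4 : Γ ≤ (VB B).sub (cl F) H ⊓ (VB B).leCard (cl F) (check (Mu c)) :=
      iInf_himp_apply (hC.trans (inf_le_left.trans inf_le_left)) (cl F) le_rfl (hcl.mem F hF)
    obtain ⟨t, ht⟩ := exists_enum_type (mk_ord_toType (Order.succ c)) (h4.trans inf_le_right)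
    have h5 : ∀ y, ∃ i, Γ ⊓ bmem (t y) H ≤ beq (t y) (A i) := fun y =>
      hA.loc i0 inf_le_left inf_le_right
    choose i hi using h5
    refine ⟨i, fun _ z => ?_⟩
    refine (le_inf le_rfl (ht z)).trans ?_
    rw [inf_iSup_eq]
    refine iSup_mono fun y => ?_
    have h6 : Γ ⊓ bmem z (cl F) ⊓ beq z (t y) ≤ Γ ⊓ bmem (t y) H := by
      refine le_inf (inf_le_left.trans inf_le_left) ?_
      refine (ext_mem_left H).of_le (x := z) inf_le_right ?_
      exact sub_apply (h4.trans inf_le_left) z (inf_le_left.trans inf_le_left)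
        (inf_le_left.trans inf_le_right)
    exact (ext_eq_right z).of_le (x := t y) (h6.trans (hi y)) inf_le_right
  choose t ht using h3
  refine ⟨fun l => Set.range (t l.toFinset), fun l => ?_, ?_⟩
  · refine mk_range_le.trans ?_
    rw [mk_ord_toType]
  intro J hJ hJc hJR
  have h7 : Γ ≤ bmem (clU cl J) C := h2 B c hc Γ H C I A hC cl hcl J hJ hJc
  refine (ext_mem_left C).of_le (x := clU cl J) ?_ h7
  refine le_trans (le_inf ?_ ?_) (sub_inf_sub_le _ _)
  · refine le_iInf fun z => ?_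
    rw [le_himp_iff, VB_mem, VB_mem, clU, mem_uni, inf_iSup_eq]
    refine iSup_le fun F => ?_
    have h8 : Γ ⊓ (⊤ ⊓ bmem z (cl F.1)) ≤ ⨆ y, beq z (A (t F.1 y)) := by
      rw [top_inf_eq]; exact ht F.1 F.2.2 z
    refine h8.trans (iSup_le fun y => ?_)
    rw [mem_nameJ]
    refine le_iSup_of_le ⟨t F.1 y, ?_⟩ le_rfl
    have h9 := hJR F.1.toList (fun i hi => F.2.1 (Finset.mem_toList.1 hi))
    simp only [Finset.toList_toFinset] at h9
    exact h9 ⟨y, rfl⟩
  · rw [le_sub_iff]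
    intro i
    change Γ ⊓ ⊤ ≤ bmem (A i.1) (clU cl J)
    rw [inf_top_eq, clU, mem_uni]
    refine le_iSup_of_le ⟨{i.1}, by simpa using i.2, by simp⟩ (le_inf le_top ?_)
    exact hcl.self {i.1} i.1 (by simp)

end Pool.Agent.Lib.MP_100a6c_lc.H54
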