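import Pool.Agent.Lib.MP_100a6c_lc.IfaceB

/-!
# Closure under functions from elements of `κ`
-/

universe u v

open Cardinal
open scoped symmDiff

namespace Pool.Agent.Lib.MP_100a6c_lc.H54

open BName

variable {B : Type u} [CompleteBooleanAlgebra B]

theorem isFun_total {Γ : B} {s a b x : BName B} (h : Γ ≤ (VB B).isFun s a b)
    {Δ : B} (hΔ : Δ ≤ Γ) (hx : Δ ≤ bmem x a) : Δ ≤ ⨆ y, (VB B).rel s x y :=
  iInf_himp_apply (h.trans (inf_le_left.trans inf_le_right)) x hΔ hx

theorem isFun_func {Γ : B} {s a b x y y' : BName B} (h : Γ ≤ (VB B).isFun s a b)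
    {Δ : B} (hΔ : Δ ≤ Γ) (hy : Δ ≤ (VB B).rel s x y) (hy' : Δ ≤ (VB B).rel s x y') :
    Δ ≤ beq y y' := by
  have h1 : Γ ≤ (VB B).rel s x y ⊓ (VB B).rel s x y' ⇨ (VB B).eq y y' :=
    (h.trans inf_le_right).trans (iInf_le_of_le x (iInf_le_of_le y (iInf_le _ y')))
  rw [le_himp_iff] at h1
  exact (le_inf hΔ (le_inf hy hy')).trans h1

theorem isFun_dom {Γ : B} {s a b x y : BName B} (h : Γ ≤ (VB B).isFun s a b)
    {Δ : B} (hΔ : Δ ≤ Γ) (hy : Δ ≤ (VB B).rel s x y) : Δ ≤ bmem x a ⊓ bmem y b := by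
  rw [rel_eq] at hy
  have h1 := iInf_himp_apply (h.trans (inf_le_left.trans inf_le_left)) (opr x y) hΔ hy
  refine h1.trans (iSup_le fun x' => iSup_le fun y' => ?_)
  rw [isPair_eq, beq_opr]
  refine le_inf ?_ ?_
  · exact (ext_mem_left a).of_le' (x := x') (inf_le_right.trans inf_le_left)
      (inf_le_left.trans inf_le_left)
  · exact (ext_mem_left b).of_le' (x := y') (inf_le_right.trans inf_le_right)
      (inf_le_left.trans inf_le_right)

/-- Change of the codomain. -/
theorem isFun_cod {Γ : B} {s a b b' : BName B} (h : Γ ≤ (VB B).isFun s a b)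
    (hb : ∀ x y, Γ ⊓ (VB B).rel s x y ≤ bmem y b') : Γ ≤ (VB B).isFun s a b' := by
  refine le_inf (le_inf ?_ (h.trans (inf_le_left.trans inf_le_right))) (h.trans inf_le_right)
  refine le_iInf fun p => ?_
  rw [le_himp_iff]
  have h1 := iInf_himp_apply (h.trans (inf_le_left.trans inf_le_left)) p
    (Δ := Γ ⊓ (VB B).mem p s) inf_le_left inf_le_right
  refine (le_inf le_rfl h1).trans ?_
  rw [inf_iSup_eq]
  refine iSup_mono fun x => ?_
  rw [inf_iSup_eq]
  refine iSup_mono fun y => ?_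
  refine le_inf (le_inf ?_ ?_) ?_
  · exact inf_le_right.trans (inf_le_left.trans inf_le_left)
  · refine le_trans ?_ (hb x y)
    refine le_inf (inf_le_left.trans inf_le_left) ?_
    rw [rel_eq, isPair_eq]
    exact (ext_mem_left s).of_le (x := p) (inf_le_right.trans inf_le_right)
      (inf_le_left.trans inf_le_right)
  · exact inf_le_right.trans inf_le_right

theorem clos (hE : EnumStatement.{u}) : ClosStatement.{u} := by
  classical
  intro B _ c hc hcc Γ H hH hstd I _ A hA
  let i0 : I := Classical.arbitrary I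
  let o : c.ord.ToType → ZFSet.{u} := fun ξ => (Ordinal.ToType.mk.symm ξ).1.toZFSet
  have ho : ∀ ξ, o ξ ∈ Kap c := fun ξ => by
    rw [Kap, Ordinal.toZFSet_mem_toZFSet_iff]; exact (Ordinal.ToType.mk.symm ξ).2
  have h1 : ∀ (z : Set I) (ξ : c.ord.ToType), ∃ e : c.ord.ToType → BName B, #z ≤ c → ∀ s,
      Γ ⊓ (VB B).isFun s (check (o ξ)) (nameJ A z) ≤ ⨆ k, beq s (e k) := by
    intro z ξ
    by_cases hz : #z ≤ c
    · obtain ⟨e, he⟩ := hE B c hc Γ hstd _ (mk_ord_toType c) (o ξ) (ho ξ) (nameJ A z)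
        (le_leCard_of_enum c hz (enum_nameJ _ A z))
      exact ⟨e, fun _ => he⟩
    · exact ⟨fun _ => A i0, fun h => (hz h).elim⟩
  choose e he using h1
  have h2 : ∀ (z : Set I) (ξ k : c.ord.ToType), ∃ i,
      Γ ⊓ (VB B).isFun (e z ξ k) (check (o ξ)) (nameJ A z) ≤ beq (e z ξ k) (A i) := by
    intro z ξ k
    refine hA.loc i0 inf_le_left (hH.func _ inf_le_left (o ξ) (ho ξ) _ ?_)
    refine isFun_cod inf_le_right fun x y => ?_
    refine sub_apply (hA.nameJ_sub z) y (inf_le_left.trans inf_le_left) ?_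
    exact (isFun_dom (inf_le_left.trans inf_le_right) le_rfl inf_le_right).trans inf_le_right
  choose ι hι using h2
  refine ⟨fun z => if #z ≤ c then Set.range (fun p : c.ord.ToType × c.ord.ToType => ι z p.1 p.2)
    else ∅, fun z => ?_, ?_⟩
  · dsimp only
    split
    · refine mk_range_le.trans ?_
      rw [← mul_def, mk_ord_toType]
      exact (mul_eq_self hc).le
    · simp
  intro K hK J Z hJ hZ hcov
  obtain ⟨j0, hj0⟩ := hJ
  -- the case of a check name
  have key : ∀ x ∈ Kap c, ∀ s, Γ ⊓ (VB B).isFun s (check x) (nameJ A J) ≤ bmem s (nameJ A J) := by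
    intro x hx s
    obtain ⟨r, hr, rfl⟩ := Ordinal.mem_toZFSet_iff.1 hx
    set Δ := Γ ⊓ (VB B).isFun s (check r.toZFSet) (nameJ A J) with hΔ
    have hfun : Δ ≤ (VB B).isFun s (check r.toZFSet) (nameJ A J) := inf_le_right
    have hJne : Nonempty J := ⟨⟨j0, hj0⟩⟩
    have h3 : ∀ η : r.ToType, ∃ g : K → J,
        Δ ≤ ⨆ k, (VB B).rel s (check (Ordinal.ToType.mk.symm η).1.toZFSet) (A (g k)) := by
      intro η
      obtain ⟨g, hg⟩ := hcc.fam (T := J)
        (fun j => (VB B).rel s (check (Ordinal.ToType.mk.symm η).1.toZFSet) (A j)) hK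
      refine ⟨g, ?_⟩
      rw [hg]
      have h4 : Δ ≤ ⨆ y, (VB B).rel s (check (Ordinal.ToType.mk.symm η).1.toZFSet) y := by
        refine isFun_total hfun le_rfl ?_
        rw [mem_check_of_mem]
        · exact le_top
        · rw [Ordinal.toZFSet_mem_toZFSet_iff]; exact (Ordinal.ToType.mk.symm η).2
      refine (le_inf le_rfl h4).trans ?_
      rw [inf_iSup_eq]
      refine iSup_le fun y => ?_
      have h5 := (isFun_dom hfun (Δ := Δ ⊓ (VB B).rel s
        (check (Ordinal.ToType.mk.symm η).1.toZFSet) y) inf_le_left inf_le_right).trans inf_le_right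
      rw [mem_nameJ] at h5
      refine (le_inf inf_le_right h5).trans ?_
      rw [inf_iSup_eq]
      exact iSup_mono fun j => (ext_rel_trd s _).of_le (x := y) inf_le_right inf_le_left
    choose g hg using h3
    -- one function
    have hcardT : #(Option (r.ToType × K)) ≤ #K := by
      rw [mk_option, ← mul_def, hK, mk_toType]
      refine add_le_of_le hc (mul_le_of_le hc ?_ le_rfl) (one_le_aleph0.trans hc)
      exact (Cardinal.lt_ord.1 hr).le
    obtain ⟨ε⟩ := hcardT
    have hsurj : Function.Surjective (Function.invFun ε) := Function.invFun_surjective ε.injective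
    let a' : Option (r.ToType × K) → J := fun t => match t with
      | none => ⟨j0, hj0⟩
      | some p => g p.1 p.2
    obtain ⟨z, hzZ, hzc, hza⟩ := hcov (fun k => a' (Function.invFun ε k)) (fun k => (a' _).2)
    have hgz : ∀ η k, (g η k : I) ∈ z := by
      intro η k
      obtain ⟨k', hk'⟩ := hsurj (some (η, k))
      have := hza k'
      rwa [hk'] at this
    -- `s` is a function to `nameJ A z`
    have hfz : Δ ≤ (VB B).isFun s (check r.toZFSet) (nameJ A z) := by
      refine isFun_cod hfun fun x y => ?_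
      have h4 := (isFun_dom hfun (Δ := Δ ⊓ (VB B).rel s x y) inf_le_left inf_le_right).trans
        inf_le_left
      rw [mem_check] at h4
      refine (le_inf le_rfl h4).trans ?_
      rw [inf_iSup_eq]
      refine iSup_le fun w => ?_
      rw [inf_iSup_eq]
      refine iSup_le fun hw => ?_
      obtain ⟨p, hp, rfl⟩ := Ordinal.mem_toZFSet_iff.1 hw
      have h5 := hg (Ordinal.ToType.mk ⟨p, hp⟩)
      simp only [OrderIso.symm_apply_apply] at h5
      have h6 : Δ ⊓ (VB B).rel s x y ⊓ beq x (check p.toZFSet) ≤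
          (VB B).rel s (check p.toZFSet) y :=
        (ext_rel_snd s y).of_le (x := x) inf_le_right (inf_le_left.trans inf_le_right)
      refine (le_inf le_rfl ((inf_le_left.trans inf_le_left).trans h5)).trans ?_
      rw [inf_iSup_eq]
      refine iSup_le fun k => ?_
      have h7 : Δ ⊓ (VB B).rel s x y ⊓ beq x (check p.toZFSet) ⊓
          (VB B).rel s (check p.toZFSet) (A (g (Ordinal.ToType.mk ⟨p, hp⟩) k)) ≤
          beq y (A (g (Ordinal.ToType.mk ⟨p, hp⟩) k)) :=
        isFun_func hfun (inf_le_left.trans (inf_le_left.trans inf_le_left))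
          (inf_le_left.trans h6) inf_le_right
      refine h7.trans ?_
      rw [mem_nameJ]
      exact le_iSup_of_le ⟨_, hgz _ k⟩ le_rfl
    have h8 := he z (Ordinal.ToType.mk ⟨r, hr⟩) hzc s
    have hor : o (Ordinal.ToType.mk ⟨r, hr⟩) = r.toZFSet := by simp [o]
    rw [hor] at h8
    have h9 : Δ ≤ ⨆ k, beq s (e z (Ordinal.ToType.mk ⟨r, hr⟩) k) :=
      (le_inf inf_le_left hfz).trans h8
    refine (le_inf le_rfl h9).trans ?_
    rw [inf_iSup_eq]
    refine iSup_le fun k => ?_
    have h10 := hι z (Ordinal.ToType.mk ⟨r, hr⟩) k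
    rw [hor] at h10
    have h11 : Δ ⊓ beq s (e z (Ordinal.ToType.mk ⟨r, hr⟩) k) ≤
        Γ ⊓ (VB B).isFun (e z (Ordinal.ToType.mk ⟨r, hr⟩) k) (check r.toZFSet) (nameJ A z) :=
      le_inf (inf_le_left.trans inf_le_left) ((ext_isFun_fst _ _).of_le (x := s) inf_le_right
        (inf_le_left.trans hfz))
    have hmem : ι z (Ordinal.ToType.mk ⟨r, hr⟩) k ∈ J := by
      refine hZ z hzZ hzc ?_
      dsimp only
      rw [if_pos hzc]
      exact ⟨(_, k), rfl⟩
    rw [mem_nameJ]
    refine le_iSup_of_le ⟨_, hmem⟩ ?_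
    exact (ext_eq_right s).of_le (h11.trans h10) inf_le_right
  refine le_iInf fun ξ => le_iInf fun s => ?_
  rw [le_himp_iff, VB_mem, mem_check, VB_mem]
  have h12 : Γ ⊓ ((⨆ (x : ZFSet.{u}) (_ : x ∈ Kap c), beq ξ (check x)) ⊓
      (VB B).isFun s ξ (nameJ A J)) ≤ ⨆ (x : ZFSet.{u}) (_ : x ∈ Kap c),
        (Γ ⊓ (VB B).isFun s (check x) (nameJ A J)) := by
    rw [iSup_inf_eq, inf_iSup_eq]
    refine iSup_mono fun x => ?_
    rw [iSup_inf_eq, inf_iSup_eq]
    refine iSup_mono fun hx => le_inf inf_le_left ?_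
    exact (ext_isFun_snd s _).of_le (x := ξ) (inf_le_right.trans inf_le_left)
      (inf_le_right.trans inf_le_right)
  exact h12.trans (iSup_le fun x => iSup_le fun hx => key x hx s)

end Pool.Agent.Lib.MP_100a6c_lc.H54
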