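import Pool.Agent.Lib.MP_100a6c_lc.IfaceC
import Pool.Agent.Lib.MP_100a6c_lc.H61.CC

/-!
# Failure of `GMP` after adding many reals, for an uncountable `κ`
-/

universe u v

open Cardinal
open scoped symmDiff

namespace Pool.Agent.Lib.MP_100a6c_lc.H54

open BName

variable {B : Type u} [CompleteBooleanAlgebra B]

theorem exists_ne_bot {ι : Sort*} {Γ : B} {f : ι → B} (h : Γ ≤ ⨆ i, f i) (hΓ : Γ ≠ ⊥) :
    ∃ i, Γ ⊓ f i ≠ ⊥ := by
  by_contra hcon
  push Not at hcon
  apply hΓ
  rw [eq_bot_iff]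
  refine (le_inf le_rfl h).trans ?_
  rw [inf_iSup_eq]
  exact iSup_le fun i => (hcon i).le

theorem ext_isClub_mu (C H : BName B) : Ext (fun μ : BName B => (VB B).isClub C H μ) :=
  ((Ext.iInf fun c => (Ext.const _).himp ((Ext.const _).inf (ext_leCard_right c))).inf
    (Ext.iInf fun x => ((Ext.const _).inf (ext_leCard_right x)).himp (Ext.const _))).inf
    (Ext.iInf fun D => ((((Ext.const _).inf (Ext.const _)).inf (ext_leCard_right D)).inf
      (Ext.const _)).himp (Ext.const _))

/-- A set onto which `μ` can be mapped has two distinct elements. -/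
theorem two_elements {Γ : B} {M : BName B} {m : ZFSet.{u}} {p q : ZFSet.{u}} (hp : p ∈ m)
    (hq : q ∈ m) (hpq : p ≠ q) (h : Γ ≤ (VB B).leCard (check m) M) :
    Γ ≤ ⨆ x : BName B × BName B, (bmem x.1 M ⊓ bmem x.2 M) ⊓ (beq x.1 x.2)ᶜ := by
  unfold Str.leCard at h
  obtain ⟨f, hf⟩ := exists_wit (((Ext.iInf fun b => Ext.iInf fun a => Ext.iInf fun a' =>
    ((ext_rel_fst b a).inf (ext_rel_fst b a')).himp (Ext.const _)).inf
    (Ext.iInf fun a => (Ext.const _).himp (Ext.iSup fun b => (Ext.const _).inf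
      (ext_rel_fst b a))))) h
  have h1 : Γ ≤ ⨆ b, (VB B).mem b M ⊓ (VB B).rel f b (check p) :=
    iInf_himp_apply (hf.trans inf_le_right) (check p) le_rfl (by
      rw [VB_mem, mem_check_of_mem hp]; exact le_top)
  have h2 : Γ ≤ ⨆ b, (VB B).mem b M ⊓ (VB B).rel f b (check q) :=
    iInf_himp_apply (hf.trans inf_le_right) (check q) le_rfl (by
      rw [VB_mem, mem_check_of_mem hq]; exact le_top)
  have h3 := le_inf le_rfl (le_inf h1 h2)
  rw [iSup_inf_iSup, inf_iSup_eq] at h3
  refine h3.trans (iSup_mono fun x => ?_)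
  refine le_inf (le_inf (inf_le_right.trans (inf_le_left.trans inf_le_left))
    (inf_le_right.trans (inf_le_right.trans inf_le_left))) ?_
  rw [le_compl_iff_disjoint_right, disjoint_iff, eq_bot_iff]
  have h4 : Γ ≤ (VB B).rel f x.1 (check p) ⊓ (VB B).rel f x.1 (check q) ⇨
      (VB B).eq (check p) (check q) :=
    (hf.trans inf_le_left).trans (iInf_le_of_le _ (iInf_le_of_le _ (iInf_le _ _)))
  rw [le_himp_iff, VB_eq, beq_check_of_ne hpq] at h4
  refine le_trans (le_inf (inf_le_left.trans inf_le_left) (le_inf ?_ ?_)) h4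
  · exact inf_le_left.trans (inf_le_right.trans (inf_le_left.trans inf_le_right))
  · exact (ext_rel_snd f _).of_le' (x := x.2) inf_le_right
      (inf_le_left.trans (inf_le_right.trans (inf_le_right.trans inf_le_right)))

/-- The natural number `n` in `V^B`. -/
noncomputable def nn (n : ℕ) : BName B := check (Ordinal.toZFSet (n : Ordinal.{u}))

theorem nn_mem (n : ℕ) : bmem (nn n : BName B) (check Ordinal.omega0.toZFSet) = ⊤ := by
  refine mem_check_of_mem ?_
  rw [Ordinal.toZFSet_mem_toZFSet_iff]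
  exact Ordinal.natCast_lt_omega0 n

theorem nn_ne {n m : ℕ} (h : n ≠ m) : beq (nn n : BName B) (nn m) = ⊥ := by
  refine beq_check_of_ne fun h' => h ?_
  exact_mod_cast Ordinal.toZFSet_injective h'

/-- The function with value `x` at `n` if `n` is in the real `a` and `y` otherwise. -/
noncomputable def sf (x y : BName B) (a : ℕ → B) : BName B :=
  relFam (ι := ULift.{u} (ℕ × Bool)) (fun p => nn p.down.1) (fun p => if p.down.2 then x else y)
    (fun p => if p.down.2 then a p.down.1 else (a p.down.1)ᶜ)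

theorem rel_sf (x y : BName B) (a : ℕ → B) (w z : BName B) : (VB B).rel (sf x y a) w z =
    ⨆ n : ℕ, (a n ⊓ (beq w (nn n) ⊓ beq z x)) ⊔ ((a n)ᶜ ⊓ (beq w (nn n) ⊓ beq z y)) := by
  rw [sf, rel_relFam]
  refine le_antisymm (iSup_le ?_) (iSup_le fun n => sup_le ?_ ?_)
  · rintro ⟨n, b⟩
    refine le_iSup_of_le n ?_
    cases b
    · exact le_sup_of_le_right (by simp)
    · exact le_sup_of_le_left (by simp)
  · exact le_iSup_of_le ⟨n, true⟩ (by simp)
  · exact le_iSup_of_le ⟨n, false⟩ (by simp)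

theorem isFun_sf {Γ : B} {x y M : BName B} (a : ℕ → B) (hx : Γ ≤ bmem x M) (hy : Γ ≤ bmem y M) :
    Γ ≤ (VB B).isFun (sf x y a) (check Ordinal.omega0.toZFSet) M := by
  have hE : Ext (fun p : BName B => ⨆ x', ⨆ y', (VB B).mem x' (check Ordinal.omega0.toZFSet) ⊓
      (VB B).mem y' M ⊓ (VB B).isPair p x' y') := Ext.iSup fun x' => Ext.iSup fun y' =>
      (Ext.const ((VB B).mem x' (check Ordinal.omega0.toZFSet) ⊓ (VB B).mem y' M)).inf
        (ext_isPair_fst x' y')
  refine le_inf (le_inf ?_ ?_) ?_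
  · refine (le_iInf_mem (x := sf x y a) hE).2 ?_
    rintro ⟨n, b⟩
    refine le_iSup_of_le (nn n) (le_iSup_of_le (if b then x else y) (le_inf (le_inf ?_ ?_) ?_))
    · rw [VB_mem, nn_mem]; exact le_top
    · cases b
      · exact inf_le_left.trans hy
      · exact inf_le_left.trans hx
    · rw [isPair_eq]
      change _ ≤ beq (opr (nn n) (if b then x else y)) _
      rw [beq_refl]; exact le_top
  · refine le_trans ?_ (iInf_VBcheck (Ext.iSup fun y' => ext_rel_snd (sf x y a) y') _).ge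
    refine le_iInf fun w => le_iInf fun hw => ?_
    obtain ⟨p, hp, rfl⟩ := Ordinal.mem_toZFSet_iff.1 hw
    obtain ⟨n, rfl⟩ := Ordinal.lt_omega0.1 hp
    have e : Γ ≤ a n ⊔ (a n)ᶜ := by rw [sup_compl_eq_top]; exact le_top
    refine e.trans (sup_le ?_ ?_)
    · refine le_iSup_of_le x ?_
      rw [rel_sf]
      refine le_iSup_of_le n (le_sup_of_le_left ?_)
      change a n ≤ a n ⊓ (beq (nn n) (nn n) ⊓ beq x x)
      rw [beq_refl, beq_refl]; simp
    · refine le_iSup_of_le y ?_
      rw [rel_sf]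
      refine le_iSup_of_le n (le_sup_of_le_right ?_)
      change (a n)ᶜ ≤ (a n)ᶜ ⊓ (beq (nn n) (nn n) ⊓ beq y y)
      rw [beq_refl, beq_refl]; simp
  · refine le_iInf fun w => le_iInf fun z => le_iInf fun z' => ?_
    rw [le_himp_iff, rel_sf, rel_sf]
    refine inf_le_right.trans ?_
    rw [iSup_inf_iSup]
    refine iSup_le fun ⟨n, m⟩ => ?_
    by_cases hnm : n = m
    · subst hnm
      change ((a n ⊓ (beq w (nn n) ⊓ beq z x)) ⊔ ((a n)ᶜ ⊓ (beq w (nn n) ⊓ beq z y))) ⊓
        ((a n ⊓ (beq w (nn n) ⊓ beq z' x)) ⊔ ((a n)ᶜ ⊓ (beq w (nn n) ⊓ beq z' y))) ≤ beq z z'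
      rw [inf_sup_left, inf_sup_right, inf_sup_right]
      refine sup_le (sup_le ?_ ?_) (sup_le ?_ ?_)
      · exact (ext_eq_right z).of_le' (x := x)
          (inf_le_right.trans (inf_le_right.trans inf_le_right))
          (inf_le_left.trans (inf_le_right.trans inf_le_right))
      · refine le_trans (le_inf ?_ ?_) ((inf_compl_self (a n)).le.trans bot_le)
        · exact inf_le_right.trans inf_le_left
        · exact inf_le_left.trans inf_le_left
      · refine le_trans (le_inf ?_ ?_) ((inf_compl_self (a n)).le.trans bot_le)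
        · exact inf_le_left.trans inf_le_left
        · exact inf_le_right.trans inf_le_left
      · exact (ext_eq_right z).of_le' (x := y)
          (inf_le_right.trans (inf_le_right.trans inf_le_right))
          (inf_le_left.trans (inf_le_right.trans inf_le_right))
    · refine le_trans ?_ bot_le
      rw [← nn_ne (B := B) hnm]
      refine (ext_eq_left _).of_le (x := w) ?_ ?_
      · exact inf_le_left.trans (sup_le (inf_le_right.trans inf_le_left)
          (inf_le_right.trans inf_le_left))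
      · exact inf_le_right.trans (sup_le (inf_le_right.trans inf_le_left)
          (inf_le_right.trans inf_le_left))

theorem sf_half {Γ : B} {x y : BName B} (a a' : ℕ → B) (hxy : Γ ≤ (beq x y)ᶜ) (n : ℕ) :
    Γ ⊓ beq (sf x y a) (sf x y a') ⊓ a n ≤ a' n := by
  have h1 : a n ≤ (VB B).rel (sf x y a) (nn n) x := by
    rw [rel_sf]
    refine le_iSup_of_le n (le_sup_of_le_left ?_)
    rw [beq_refl, beq_refl]; simp
  have h2 : Γ ⊓ beq (sf x y a) (sf x y a') ⊓ a n ≤ (VB B).rel (sf x y a') (nn n) x :=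
    (ext_rel_fst _ _).of_le (x := sf x y a) (inf_le_left.trans inf_le_right)
      (inf_le_right.trans h1)
  rw [rel_sf] at h2
  refine (le_inf (inf_le_left.trans inf_le_left) h2).trans ?_
  rw [inf_iSup_eq]
  refine iSup_le fun m => ?_
  by_cases hnm : n = m
  · subst hnm
    rw [inf_sup_left]
    refine sup_le (inf_le_right.trans inf_le_left) ?_
    refine le_trans (le_inf ?_ (inf_le_left.trans hxy)) ((inf_compl_self (beq x y)).le.trans bot_le)
    exact inf_le_right.trans (inf_le_right.trans inf_le_right)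
  · refine le_trans ?_ bot_le
    rw [← nn_ne (B := B) hnm]
    exact inf_le_right.trans (sup_le (inf_le_right.trans inf_le_left)
      (inf_le_right.trans inf_le_left))

theorem sf_ne {Γ : B} {x y : BName B} (a a' : ℕ → B) (hxy : Γ ≤ (beq x y)ᶜ)
    (h : ⨅ n, (a n ⇔ a' n) = ⊥) : Γ ⊓ beq (sf x y a) (sf x y a') = ⊥ := by
  rw [eq_bot_iff, ← h]
  refine le_iInf fun n => le_inf ?_ ?_
  · rw [le_himp_iff]
    have := sf_half (Γ := Γ) (x := x) (y := y) a' a hxy n
    rwa [beq_symm] at this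
  · rw [le_himp_iff]
    exact sf_half a a' hxy n

/-- No set of size `c⁺` with two distinct elements is closed under functions from `ω`. -/
theorem no_closed {c : Cardinal.{u}} (hc : ℵ₀ < c) (hcc : CCov c B) {L : Type u}
    (hL : #L = Order.succ (Order.succ c)) {a : L → ℕ → B}
    (ha : ∀ l l' : L, l ≠ l' → ⨅ n, (a l n ⇔ a l' n) = ⊥) {Γ : B} {M : BName B}
    (h1 : Γ ≤ (VB B).leCard M (check (Mu c))) (h2 : Γ ≤ (VB B).leCard (check (Mu c)) M)
    (h3 : Γ ≤ ⨅ ξ, ⨅ s, (VB B).mem ξ (check (Kap c)) ⊓ (VB B).isFun s ξ M ⇨ (VB B).mem s M) :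
    Γ = ⊥ := by
  by_contra hΓ
  have hs : ℵ₀ ≤ Order.succ c := hc.le.trans (Order.le_succ c)
  have hm0 : (Ordinal.toZFSet 0 : ZFSet.{u}) ∈ Mu c := by
    rw [Mu, Ordinal.toZFSet_mem_toZFSet_iff]
    exact (Ordinal.omega0_pos).trans_le ((omega0_le_ord).2 hs)
  have hm1 : (Ordinal.toZFSet 1 : ZFSet.{u}) ∈ Mu c := by
    rw [Mu, Ordinal.toZFSet_mem_toZFSet_iff]
    exact (Ordinal.one_lt_omega0).trans_le ((omega0_le_ord).2 hs)
  obtain ⟨⟨x, y⟩, hxy⟩ := exists_ne_bot (two_elements hm0 hm1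
    (fun h => zero_ne_one (Ordinal.toZFSet_injective h)) h2) hΓ
  set Δ := Γ ⊓ ((bmem x M ⊓ bmem y M) ⊓ (beq x y)ᶜ) with hΔ
  have hx : Δ ≤ bmem x M := inf_le_right.trans (inf_le_left.trans inf_le_left)
  have hy : Δ ≤ bmem y M := inf_le_right.trans (inf_le_left.trans inf_le_right)
  have hne : Δ ≤ (beq x y)ᶜ := inf_le_right.trans inf_le_right
  have hωκ : Ordinal.omega0.toZFSet ∈ Kap c := by
    rw [Kap, Ordinal.toZFSet_mem_toZFSet_iff, ← ord_aleph0]
    exact ord_lt_ord.2 hc
  have hsM : ∀ l, Δ ≤ bmem (sf x y (a l)) M := by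
    intro l
    have h4 : Δ ≤ (VB B).mem (check Ordinal.omega0.toZFSet) (check (Kap c)) ⊓
        (VB B).isFun (sf x y (a l)) (check Ordinal.omega0.toZFSet) M := by
      refine le_inf ?_ (isFun_sf (a l) hx hy)
      rw [VB_mem, mem_check_of_mem hωκ]; exact le_top
    have h5 : Γ ≤ (VB B).mem (check Ordinal.omega0.toZFSet) (check (Kap c)) ⊓
        (VB B).isFun (sf x y (a l)) (check Ordinal.omega0.toZFSet) M ⇨
          (VB B).mem (sf x y (a l)) M := h3.trans (iInf_le_of_le _ (iInf_le _ _))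
    rw [le_himp_iff] at h5
    exact (le_inf inf_le_left h4).trans h5
  obtain ⟨t, ht⟩ := exists_enum_type (mk_ord_toType (Order.succ c)) h1
  have hex : ∀ l, ∃ k, Δ ⊓ beq (sf x y (a l)) (t k) ≠ ⊥ := fun l =>
    exists_ne_bot ((le_inf inf_le_left (hsM l)).trans (ht _)) hxy
  choose f hf using hex
  have hfib : ∀ k, #{l // f l = k} ≤ c := by
    intro k
    refine H61.card_le_of_disjoint hcc
      (fun l : {l // f l = k} => Δ ⊓ beq (sf x y (a l.1)) (t k)) ?_ ?_
    · rintro ⟨l, rfl⟩
      exact hf l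
    · rintro ⟨l, hl⟩ ⟨l', hl'⟩ hll
      have hne' : l ≠ l' := fun h => hll (Subtype.ext h)
      rw [← le_bot_iff, ← sf_ne (a l) (a l') hne (ha l l' hne')]
      refine le_inf (inf_le_left.trans inf_le_left) ?_
      exact (ext_eq_right _).of_le' (x := t k) (inf_le_right.trans inf_le_right)
        (inf_le_left.trans inf_le_right)
  have hY : #L ≤ Order.succ c := by
    rw [← Cardinal.mk_congr (Equiv.sigmaFiberEquiv f), Cardinal.mk_sigma]
    refine (Cardinal.sum_le_sum _ (fun _ => c) hfib).trans ?_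
    rw [Cardinal.sum_const', mk_ord_toType]
    exact mul_le_of_le hs le_rfl (Order.le_succ c)
  rw [hL] at hY
  exact absurd hY (not_le.2 (Order.lt_succ _))

theorem pf (hOrd : OrdStatement.{u}) (hC : PCStatement.{u}) (hD : PDStatement.{u})
    (hE : PEStatement.{u}) : PFStatement.{u} := by
  intro B _ c hc hcc L hL a ha
  have hs : ℵ₀ ≤ Order.succ c := hc.le.trans (Order.le_succ c)
  rw [eq_bot_iff]
  refine iSup_le fun μ => ?_
  rw [le_bot_iff]
  by_contra hne
  set Γ0 := (VB B).isSucc μ (check (Kap c)) ⊓ ⨅ θ, ⨅ H, ⨅ C,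
    (VB B).isReg θ ⊓ (VB B).mem μ θ ⊓ (VB B).isH H θ ⊓ (VB B).isClub C H μ ⇨
      ⨆ M, (VB B).mem M C ⊓ (VB B).isGuess (check (Kap c)) μ H M with hΓ0
  have h0 : Γ0 ≤ (VB B).isSucc μ (check (Kap c)) := inf_le_left
  obtain ⟨⟨m, hm⟩, hΓ⟩ := exists_ne_bot
    ((h0.trans (inf_le_left.trans inf_le_left)).trans ((hOrd B).1 μ)) hne
  set Γ := Γ0 ⊓ beq μ (check m) with hΓdef
  have hsucc : Γ ≤ (VB B).isSucc (check m) (check (Kap c)) :=
    (ext_isSucc_left _).of_le (x := μ) inf_le_right (inf_le_left.trans h0)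
  have hmu := H61.isSucc_check hc.le hcc
  have hnle : (VB B).leCard (check (Mu c)) (check (Kap c)) = ⊥ := by
    have h1 : (VB B).isSucc (check (Mu c)) (check (Kap c)) ≤
        ((VB B).leCard (check (Mu c)) (check (Kap c)))ᶜ := inf_le_left.trans inf_le_right
    rw [hmu, top_le_iff, compl_eq_top] at h1
    exact h1
  obtain ⟨o, rfl⟩ := ZFSet.isOrdinal_iff_mem_range_toZFSet.1 hm
  have ho : o.toZFSet = Mu c := by
    have h2 : (Order.succ c).ord ≤ o := by
      by_contra hlt
      rw [not_le, lt_ord] at hlt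
      apply hΓ
      have h3 : (VB B).leCard (check o.toZFSet) (check (Kap c)) = ⊤ := by
        refine leCard_check ?_
        rw [H77.leCard_iff, Kap, Ordinal.card_toZFSet, Ordinal.card_toZFSet, card_ord]
        exact Order.le_of_lt_succ hlt
      have h4 : Γ ≤ ((VB B).leCard (check o.toZFSet) (check (Kap c)))ᶜ :=
        hsucc.trans (inf_le_left.trans inf_le_right)
      rwa [h3, compl_top, le_bot_iff] at h4
    rcases h2.eq_or_lt with h2 | h2
    · rw [← h2, Mu]
    · exfalso
      apply hΓ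
      have h3 : Γ ≤ (VB B).leCard (check (Mu c)) (check (Kap c)) := by
        refine iInf_himp_apply (hsucc.trans inf_le_right) (check (Mu c)) le_rfl ?_
        rw [VB_mem, mem_check_of_mem]
        · exact le_top
        · rw [Mu, Ordinal.toZFSet_mem_toZFSet_iff]; exact h2
      rwa [hnle, le_bot_iff] at h3
  rw [ho] at hΓdef
  have hμ : Γ ≤ beq μ (check (Mu c)) := hΓdef ▸ inf_le_right
  -- the regular cardinal
  have hd : ℵ₀ ≤ max #B (Order.succ c) := hs.trans (le_max_right _ _)
  have hdreg : (Order.succ (max #B (Order.succ c))).IsRegular := isRegular_succ hd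
  have hreg := hD B _ hdreg ((le_max_left _ _).trans_lt (Order.lt_succ _))
  obtain ⟨H, hH⟩ := hC B (Order.succ (max #B (Order.succ c))).ord
  obtain ⟨C, hCl⟩ := hE B c hc.le H
  have hΘ : Mu c ∈ Kap (Order.succ (max #B (Order.succ c))) := by
    rw [Mu, Kap, Ordinal.toZFSet_mem_toZFSet_iff]
    exact ord_lt_ord.2 ((le_max_right _ _).trans_lt (Order.lt_succ _))
  have h5 : Γ ≤ ⨆ M, (VB B).mem M C ⊓ (VB B).isGuess (check (Kap c)) μ H M := by
    have h6 : Γ ≤ (VB B).isReg (check (Kap (Order.succ (max #B (Order.succ c))))) ⊓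
        (VB B).mem μ (check (Kap (Order.succ (max #B (Order.succ c))))) ⊓
        (VB B).isH H (check (Kap (Order.succ (max #B (Order.succ c))))) ⊓
        (VB B).isClub C H μ := by
      refine le_inf (le_inf (le_inf ?_ ?_) ?_) ?_
      · rw [hreg]; exact le_top
      · refine (ext_mem_left _).of_le' (x := check (Mu c)) hμ ?_
        rw [mem_check_of_mem hΘ]; exact le_top
      · rw [Kap, hH]; exact le_top
      · refine (ext_isClub_mu C H).of_le' (x := check (Mu c)) hμ ?_
        rw [hCl]; exact le_top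
    have h7 : Γ ≤ (VB B).isReg (check (Kap (Order.succ (max #B (Order.succ c))))) ⊓
        (VB B).mem μ (check (Kap (Order.succ (max #B (Order.succ c))))) ⊓
        (VB B).isH H (check (Kap (Order.succ (max #B (Order.succ c))))) ⊓
        (VB B).isClub C H μ ⇨ ⨆ M, (VB B).mem M C ⊓ (VB B).isGuess (check (Kap c)) μ H M :=
      (inf_le_left.trans inf_le_right).trans
        (iInf_le_of_le _ (iInf_le_of_le H (iInf_le _ C)))
    rw [le_himp_iff] at h7
    exact (le_inf le_rfl h6).trans h7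
  obtain ⟨M, hM⟩ := exists_ne_bot h5 hΓ
  apply hM
  have hG : Γ ⊓ ((VB B).mem M C ⊓ (VB B).isGuess (check (Kap c)) μ H M) ≤
      (VB B).isGuess (check (Kap c)) μ H M := inf_le_right.trans inf_le_right
  refine no_closed hc hcc hL ha ?_ ?_ (hG.trans (inf_le_left.trans inf_le_right))
  · exact (ext_leCard_right M).of_le (x := μ) (inf_le_left.trans hμ)
      (hG.trans (inf_le_left.trans (inf_le_left.trans (inf_le_right.trans inf_le_left))))
  · exact (ext_leCard_left M).of_le (x := μ) (inf_le_left.trans hμ)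
      (hG.trans (inf_le_left.trans (inf_le_left.trans (inf_le_right.trans inf_le_right))))

end Pool.Agent.Lib.MP_100a6c_lc.H54
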