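import Pool.Agent.Lib.MP_100a6c_lc.H54.Main
import Pool.Agent.Lib.MP_100a6c_lc.H54.PF
import Pool.Agent.Lib.MP_100a6c_lc.H36.Omega
import Pool.Agent.Lib.MP_100a6c_lc.H41.PA
import Pool.Agent.Lib.MP_100a6c_lc.H53.Cohen

/-!
# The cases `κ = ω` and `κ > ω`
-/

universe u

open Cardinal

namespace Pool.Agent.Lib.MP_100a6c_lc.H54

open BName

/-- `GMP` at `ω` is preserved by every `σ`-centered forcing. -/
theorem preserved_omega (P : Type u) [Preorder P] (hstd : V.std Ordinal.omega0.{u}.toZFSet)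
    (hgmp : V.gmp Ordinal.omega0.{u}.toZFSet) (hP : Centered Ordinal.omega0.{u}.toZFSet P) :
    (VB (H1.RO P)).gmp (check Ordinal.omega0.toZFSet) = ⊤ := by
  have h := preserved _ P hstd hgmp hP
  rw [H36.omega (H1.RO P)] at h
  exact top_le_iff.1 h

/-- For an uncountable `κ` some `κ⁺`-centered forcing destroys the standing hypothesis. -/
theorem fails (hC : PCStatement.{u}) (hD : PDStatement.{u}) (hE : PEStatement.{u})
    (κ : ZFSet.{u}) (hstd : V.std κ) (hgmp : V.gmp κ)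
    (hκ : κ ≠ Ordinal.omega0.toZFSet) : ∃ (P : Type u) (_ : Preorder P), Nonempty P ∧
      Centered κ P ∧ (VB (H1.RO P)).gmp (check κ) = ⊥ := by
  have hpa := H41.pa gs κ hstd hgmp
  obtain ⟨c, hcr, rfl, -⟩ := (H77.std_iff κ).1 hstd
  have hcard : (c.ord.toZFSet).card = c := by rw [Ordinal.card_toZFSet, card_ord]
  rw [hcard] at hpa
  have hc : ℵ₀ < c := by
    refine lt_of_le_of_ne hcr.aleph0_le ?_
    rintro rfl
    exact hκ (by rw [ord_aleph0])
  have hpb := H53.pb c.ord.toZFSet (by rw [hcard]; exact hc.le)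
    (Order.succ (Order.succ c)).ord.ToType (by rw [hcard, mk_ord_toType]; exact hpa)
  obtain ⟨P, hP, hne, hcen, a, ha⟩ := hpb
  refine ⟨P, hP, hne, hcen, ?_⟩
  obtain ⟨U, hU, hcov⟩ := H1.centered_ult c.ord.toZFSet P hcen (Quotient.out c)
    (by rw [hcard, Cardinal.mk_out])
  have hcc : CCov c (H1.RO P) := (H61.cc _ c hc.le).1 _ U (Cardinal.mk_out c) hU hcov
  exact pf H68.ord hC hD hE (H1.RO P) c hc hcc _ (mk_ord_toType _) a ha

end Pool.Agent.Lib.MP_100a6c_lc.H54
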