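import Pool.Agent.Lib.MP_100a6c_lc.IfaceB

/-!
# Assembly of the preservation theorem
-/

universe u v

open Cardinal
open scoped symmDiff

namespace Pool.Agent.Lib.MP_100a6c_lc.H54

open BName

/-! ## Rules -/

section rules

variable {I B K : Type u}

/-- The index of an object of type `idx`. -/
def unIdx : Om I B K → Option I
  | .idx i => some i
  | _ => none

/-- A rule for lists of indices. -/
def liftL (R : List I → Set I) : List (Om I B K) → Set (Om I B K) := fun l =>
  Om.idx '' R (l.filterMap unIdx)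

/-- A rule for a set of indices. -/
def subR (R : Set I → Set I) : List (Om I B K) → Set (Om I B K)
  | [.sub z] => Om.idx '' R z
  | _ => ∅

/-- A rule for an index. -/
def fnR (T : I → I → B) : List (Om I B K) → Set (Om I B K)
  | [.idx j] => {.fn (T j)}
  | _ => ∅

/-- A rule for a label and an index. -/
def labR (ν : (K → Set I) → I → I) : List (Om I B K) → Set (Om I B K)
  | [.lab e, .idx x] => {.idx (ν e x)}
  | _ => ∅

/-- A constant rule. -/
def constR (S : Set I) : List (Om I B K) → Set (Om I B K) := fun _ => Om.idx '' S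

/-- The union of two rules. -/
def uR (R R' : List (Om I B K) → Set (Om I B K)) : List (Om I B K) → Set (Om I B K) :=
  fun l => R l ∪ R' l

theorem uR_left {R R' : List (Om I B K) → Set (Om I B K)} {M : Set (Om I B K)}
    (h : RClosed (uR R R') M) : RClosed R M := fun l hl => Set.subset_union_left.trans (h l hl)

theorem uR_right {R R' : List (Om I B K) → Set (Om I B K)} {M : Set (Om I B K)}
    (h : RClosed (uR R R') M) : RClosed R' M := fun l hl => Set.subset_union_right.trans (h l hl)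

/-- Rules with at most `c` values. -/
def Small (c : Cardinal.{u}) (R : List (Om I B K) → Set (Om I B K)) : Prop := ∀ l, #(R l) ≤ c

theorem small_uR {c : Cardinal.{u}} (hc : ℵ₀ ≤ c) {R R' : List (Om I B K) → Set (Om I B K)}
    (h : Small c R) (h' : Small c R') : Small c (uR R R') := fun l =>
  (mk_union_le _ _).trans (add_le_of_le hc (h l) (h' l))

theorem small_liftL {c : Cardinal.{u}} {R : List I → Set I} (h : ∀ l, #(R l) ≤ c) :
    Small c (liftL (B := B) (K := K) R) := fun _ => mk_image_le.trans (h _)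

theorem small_subR {c : Cardinal.{u}} {R : Set I → Set I} (h : ∀ l, #(R l) ≤ c) :
    Small c (subR (B := B) (K := K) R) := by
  intro l
  unfold subR
  split
  · exact mk_image_le.trans (h _)
  · simp

theorem small_fnR {c : Cardinal.{u}} (hc : ℵ₀ ≤ c) (T : I → I → B) :
    Small c (fnR (K := K) T) := by
  intro l
  unfold fnR
  split
  · rw [mk_singleton]; exact one_le_aleph0.trans hc
  · simp

theorem small_labR {c : Cardinal.{u}} (hc : ℵ₀ ≤ c) (ν : (K → Set I) → I → I) :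
    Small c (labR (B := B) ν) := by
  intro l
  unfold labR
  split
  · rw [mk_singleton]; exact one_le_aleph0.trans hc
  · simp

theorem small_constR {c : Cardinal.{u}} {S : Set I} (h : #S ≤ c) :
    Small c (constR (B := B) (K := K) S) := fun _ => mk_image_le.trans h

theorem lclosed_of {R : List I → Set I} {M : Set (Om I B K)} (h : RClosed (liftL R) M) :
    LClosed R {i | Om.idx i ∈ M} := by
  intro l hl i hi
  refine h (l.map Om.idx) ?_ ?_
  · intro x hx
    obtain ⟨j, hj, rfl⟩ := List.mem_map.1 hx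
    exact hl j hj
  · refine ⟨i, ?_, rfl⟩
    have : (l.map (Om.idx (I := I) (B := B) (K := K))).filterMap unIdx = l := by
      rw [List.filterMap_map]
      exact List.filterMap_some
    rwa [this]

theorem subR_closed {R : Set I → Set I} {M : Set (Om I B K)} (h : RClosed (subR R) M)
    {z : Set I} (hz : Om.sub z ∈ M) {i : I} (hi : i ∈ R z) : Om.idx i ∈ M :=
  h [.sub z] (by simpa using hz) ⟨i, hi, rfl⟩

theorem fnR_closed {T : I → I → B} {M : Set (Om I B K)} (h : RClosed (fnR T) M)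
    {j : I} (hj : Om.idx j ∈ M) : Om.fn (T j) ∈ M :=
  h [.idx j] (by simpa using hj) rfl

theorem labR_closed {ν : (K → Set I) → I → I} {M : Set (Om I B K)} (h : RClosed (labR ν) M)
    {e : K → Set I} {x : I} (he : Om.lab e ∈ M) (hx : Om.idx x ∈ M) : Om.idx (ν e x) ∈ M :=
  h [.lab e, .idx x] (by simpa using ⟨he, hx⟩) rfl

theorem constR_closed {S : Set I} {M : Set (Om I B K)} (h : RClosed (constR S) M)
    {i : I} (hi : i ∈ S) : Om.idx i ∈ M := h [] (by simp) ⟨i, hi, rfl⟩

end rules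

/-! ## Names for guessing models -/

variable {B : Type u} [CompleteBooleanAlgebra B]

theorem le_of_inf_compl_eq_bot {a b : B} (h : a ⊓ bᶜ = ⊥) : a ≤ b := by
  rw [← disjoint_iff, disjoint_compl_right_iff] at h
  exact h

/-- The set of indices of `M`. -/
def ixs {I K : Type u} (M : Set (Om I B K)) : Set I := {i | Om.idx i ∈ M}

omit [CompleteBooleanAlgebra B] in
theorem mk_ixs_le {I K : Type u} (M : Set (Om I B K)) : #(ixs M) ≤ #M := by
  refine mk_le_of_injective (f := fun i : ixs M => (⟨Om.idx i.1, i.2⟩ : M)) ?_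
  intro i j h
  have := congrArg Subtype.val h
  simp only [Om.idx.injEq] at this
  exact Subtype.ext this

/-- Step (f): approximations in the ground model. -/
theorem step_f {c : Cardinal.{u}} {Γ : B} {H : BName B} {I : Type u}
    {A : I → BName B} {J z : Set I} (hzJ : z ⊆ J) (hz : #z ≤ c) {ψ : I} (hψJ : ψ ∈ J)
    (hψ : Γ ≤ beq (nameJ A z) (A ψ)) {d : BName B} {p : B} (hpΓ : p ≤ Γ) (hp0 : p ≠ ⊥)
    (hp : p ≤ (VB B).approx (check (Kap c)) (nameJ A J) d) :
    ∃ p' ≤ p, p' ≠ ⊥ ∧ ∃ j ∈ J, ∀ i ∈ z, p' ⊓ bmem (A i) d = p' ⊓ bmem (A i) (A j) := by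
  have h1 : p ≤ (VB B).mem (nameJ A z) (nameJ A J) ⊓ (VB B).sub (nameJ A z) (nameJ A J) ⊓
      (VB B).leCard (nameJ A z) (check (Kap c)) := by
    refine le_inf (le_inf ?_ ?_) ?_
    · refine (ext_mem_left (nameJ A J)).of_le' (x := A ψ) (y := nameJ A z) ?_ ?_
      · exact hpΓ.trans hψ
      · rw [mem_nameJ_self A hψJ]; exact le_top
    · rw [le_sub_iff]
      intro i
      change _ ≤ bmem (A i.1) (nameJ A J)
      rw [mem_nameJ_self A (hzJ i.2)]; exact le_top
    · exact le_leCard_of_enum c hz (enum_nameJ _ A z)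
  have h2 := iInf_himp_apply hp (nameJ A z) le_rfl h1
  have hE : Ext (fun t : BName B => ⨅ y, (VB B).mem y t ⇔ ((VB B).mem y d ⊓
      (VB B).mem y (nameJ A z))) := Ext.iInf fun y => (ext_mem_right y).bihimp (Ext.const _)
  have h3 := iSup_nameJ A J hE
  rw [show (⨆ t, (VB B).mem t (nameJ A J) ⊓ ⨅ y, (VB B).mem y t ⇔ ((VB B).mem y d ⊓
      (VB B).mem y (nameJ A z))) = _ from h3] at h2
  have h4 : ∃ j : J, p ⊓ (⨅ y, (VB B).mem y (A j) ⇔ ((VB B).mem y d ⊓
      (VB B).mem y (nameJ A z))) ≠ ⊥ := by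
    by_contra hcon
    push Not at hcon
    apply hp0
    rw [eq_bot_iff]
    refine (le_inf le_rfl h2).trans ?_
    rw [inf_iSup_eq]
    exact iSup_le fun j => (hcon j).le
  obtain ⟨j, hj⟩ := h4
  refine ⟨_, inf_le_left, hj, j.1, j.2, fun i hi => ?_⟩
  have h5 := (inf_le_right : p ⊓ (⨅ y, (VB B).mem y (A j) ⇔ ((VB B).mem y d ⊓
      (VB B).mem y (nameJ A z))) ≤ _).trans (iInf_le _ (A i))
  rw [le_bihimp_iff'] at h5
  rw [VB_mem, VB_mem, VB_mem, mem_nameJ_self A hi, inf_top_eq] at h5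
  exact h5.symm

/-- Step (g): the guess. -/
theorem step_g {c : Cardinal.{u}} {Γ : B} {H : BName B} {I : Type u}
    {A : I → BName B} {J : Set I} {i0 ν : I} (hνJ : ν ∈ J) {g : I → B}
    (hg : ∀ i j, g i ⊓ beq (A i) (A j) ≤ g j)
    (hν : Γ ≤ beq (sepn (A i0) fun y => ⨆ i, beq y (A i) ⊓ g i) (A ν)) {d : BName B} {p : B}
    (hpΓ : p ≤ Γ) (hd : p ≤ (VB B).sub d (A i0)) (hG : ∀ i ∈ J, p ⊓ bmem (A i) d = p ⊓ g i) :
    p ≤ (VB B).guessed (nameJ A J) d := by
  refine le_iSup_of_le (A ν) (le_inf ?_ ?_)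
  · rw [VB_mem, mem_nameJ_self A hνJ]; exact le_top
  have hE : Ext (fun y : BName B => (VB B).mem y d ⇔ (VB B).mem y (A ν)) :=
    (ext_mem_left d).bihimp (ext_mem_left (A ν))
  have h3 := iInf_nameJ A J hE
  rw [show (⨅ y, (VB B).mem y (nameJ A J) ⇨ (VB B).mem y d ⇔ (VB B).mem y (A ν)) = _ from h3]
  refine le_iInf fun i => ?_
  rw [le_bihimp_iff', VB_mem, VB_mem]
  have hγ : Ext (fun y : BName B => ⨆ i, beq y (A i) ⊓ g i) :=
    Ext.iSup fun i => (ext_eq_left (A i)).inf (Ext.const _)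
  have h4 : p ⊓ bmem (A i) (A ν) = p ⊓ (bmem (A i) (A i0) ⊓ g i) := by
    have h5 := le_beq_iff.1 (hpΓ.trans hν) (A i)
    rw [← h5, mem_sepn hγ]
    have h6 : (⨆ j, beq (A i) (A j) ⊓ g j) = g i := by
      refine le_antisymm (iSup_le fun j => ?_) (le_iSup_of_le i ?_)
      · rw [inf_comm, beq_symm]; exact hg j i
      · rw [beq_refl, top_inf_eq]
    rw [h6]
  rw [h4]
  have h7 : p ⊓ bmem (A i) d ≤ bmem (A i) (A i0) := sub_apply hd (A i) inf_le_left inf_le_right
  have h8 := hG i.1 i.2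
  refine le_antisymm (le_inf inf_le_left (le_inf h7 (h8.le.trans inf_le_right))) ?_
  refine le_trans (le_inf inf_le_left (inf_le_right.trans inf_le_right)) h8.ge

/-- The main step, at a fixed regular `Θ`. -/
theorem main_step (hClos : ClosStatement.{u}) (hElem : ElemStatement.{u})
    (hCL3 : CL3Statement.{u}) (hCore : CoreStatement.{u}) (hGS : GSStatement.{u})
    (c : Cardinal.{u}) (hc : ℵ₀ ≤ c) (hstd : V.std (Kap c)) (hgmp : V.gmp (Kap c))
    (hcc : CCov c B) (K : Type u) (hK : #K = c) (U : K → Set B) (hU : ∀ k, IsUlt (U k))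
    (hcov : ∀ b : B, b ≠ ⊥ → ∃ k, b ∈ U k) (Γ : B) (hΓ : Γ ≠ ⊥) (H C : BName B)
    (hH : HProp c Γ H) (hΓstd : Γ ≤ (VB B).std (check (Kap c)))
    (hC : Γ ≤ (VB B).isClub C H (check (Mu c)))
    (hno : ∀ M : BName B, Γ ⊓ ((VB B).mem M C ⊓
      (VB B).isGuess (check (Kap c)) (check (Mu c)) H M) = ⊥) : False := by
  classical
  have hcard : (Kap c).card = c := by rw [Kap, Ordinal.card_toZFSet, card_ord]
  have hcs : c ≤ Order.succ c := Order.le_succ c
  have hs : ℵ₀ ≤ Order.succ c := hc.trans hcs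
  obtain ⟨I, A, hA⟩ := exists_rep Γ H
  obtain ⟨iμ, hiμ⟩ := hA.rep _ hH.mu
  have : Nonempty I := ⟨iμ⟩
  -- the rules
  obtain ⟨R1, hR1, hR1'⟩ := hCL3 B c hc Γ H C I A hA hC
  obtain ⟨R2, hR2, hR2'⟩ := hElem B Γ H I A hA
  obtain ⟨R3, hR3, hR3'⟩ := hClos B c hc hcc Γ H hH hΓstd I A hA
  have hψ : ∀ z : Set I, ∃ i, #z ≤ c → Γ ≤ beq (nameJ A z) (A i) := by
    intro z
    by_cases hz : #z ≤ c
    · obtain ⟨i, hi⟩ := hA.rep (nameJ A z) (hH.small Γ le_rfl _ (hA.nameJ_sub z)
        (le_leCard_of_enum c hz (enum_nameJ _ A z)))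
      exact ⟨i, fun _ => hi⟩
    · exact ⟨iμ, fun h => (hz h).elim⟩
  choose ψ hψ using hψ
  have hξ : ∀ ξ : (Order.succ c).ord.ToType, ∃ i,
      Γ ≤ beq (check (Ordinal.ToType.mk.symm ξ).1.toZFSet) (A i) := by
    intro ξ
    refine hA.rep _ (hH.trans Γ le_rfl _ (check (Mu c)) ?_ hH.mu)
    rw [mem_check_of_mem]
    · exact le_top
    · rw [Mu, Ordinal.toZFSet_mem_toZFSet_iff]
      exact (Ordinal.ToType.mk.symm ξ).2
  choose iξ hiξ using hξ
  let E : I → I → B := fun i j => beq (A i) (A j)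
  obtain ⟨RC, hRC, hcore⟩ := hCore I B K c hc hK E (fun i => beq_refl _) (fun i j => beq_symm _ _)
    (fun i j k => beq_trans _ _ _) U hU hcov
  let S0 : Set I := Set.range iξ ∪ {iμ}
  have hS0 : #S0 ≤ Order.succ c := by
    refine (mk_union_le _ _).trans (add_le_of_le hs ?_ ?_)
    · refine mk_range_le.trans ?_
      rw [mk_ord_toType]
    · rw [mk_singleton]; exact one_le_aleph0.trans hs
  let Rψ : Set I → Set I := fun z => if #z ≤ c then z ∪ {ψ z} else ∅
  have hRψ : ∀ z, #(Rψ z) ≤ Order.succ c := by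
    intro z
    change #((if #z ≤ c then z ∪ {ψ z} else ∅ : Set I)) ≤ _
    split
    · rename_i h
      refine (mk_union_le _ _).trans (add_le_of_le hs (h.trans hcs) ?_)
      rw [mk_singleton]; exact one_le_aleph0.trans hs
    · simp
  let Rb : List (Om I B K) → Set (Om I B K) :=
    uR (uR (uR (liftL R1) (liftL R2)) (uR (subR R3) (subR Rψ)))
      (uR (uR (fnR fun j i => bmem (A i) (A j)) (constR S0)) RC)
  have hRb : Small (Order.succ c) Rb :=
    small_uR hs (small_uR hs (small_uR hs (small_liftL hR1) (small_liftL fun l =>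
      (hR2 l).trans hs)) (small_uR hs (small_subR fun z => (hR3 z).trans hcs) (small_subR hRψ)))
      (small_uR hs (small_uR hs (small_fnR hs _) (small_constR hS0)) fun l => (hRC l).trans hcs)
  let S : Set (Set (Om I B K)) := {M | GS c M ∧ RClosed Rb M}
  -- properties of the names of members of `S`
  have hJ : ∀ M ∈ S, Γ ≤ (VB B).mem (nameJ A (ixs M)) C ∧
      Γ ≤ (VB B).elem (nameJ A (ixs M)) H ∧
      Γ ≤ (VB B).leCard (nameJ A (ixs M)) (check (Mu c)) ⊓
        (VB B).leCard (check (Mu c)) (nameJ A (ixs M)) ∧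
      Γ ≤ ⨅ ξ, ⨅ s, (VB B).mem ξ (check (Kap c)) ⊓ (VB B).isFun s ξ (nameJ A (ixs M)) ⇨
        (VB B).mem s (nameJ A (ixs M)) := by
    rintro M ⟨hM, hMR⟩
    have hne : (ixs M).Nonempty :=
      ⟨iμ, constR_closed (uR_right (uR_left (uR_right hMR))) (Or.inr rfl)⟩
    have hsize : #(ixs M) ≤ Order.succ c := (mk_ixs_le M).trans hM.size
    refine ⟨?_, ?_, le_inf ?_ ?_, ?_⟩
    · exact hR1' _ hne hsize (lclosed_of (uR_left (uR_left (uR_left hMR))))
    · exact hR2' _ (lclosed_of (uR_right (uR_left (uR_left hMR))))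
    · exact le_leCard_of_enum _ hsize (enum_nameJ _ _ _)
    · refine le_trans ?_ (sub_le_leCard _ _)
      rw [sub_check_iff]
      refine le_iInf fun x => le_iInf fun hx => ?_
      obtain ⟨o, ho, rfl⟩ := Ordinal.mem_toZFSet_iff.1 hx
      have h1 := hiξ (Ordinal.ToType.mk ⟨o, ho⟩)
      simp only [OrderIso.symm_apply_apply] at h1
      refine (ext_mem_left _).of_le' (x := A (iξ (Ordinal.ToType.mk ⟨o, ho⟩))) h1 ?_
      rw [mem_nameJ_self A (constR_closed (uR_right (uR_left (uR_right hMR)))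
        (Or.inl ⟨_, rfl⟩) : iξ (Ordinal.ToType.mk ⟨o, ho⟩) ∈ ixs M)]
      exact le_top
    · refine hR3' K hK (ixs M) {z | Om.sub z ∈ M} hne ?_ ?_
      · intro z hz _ i hi
        exact subR_closed (uR_left (uR_right (uR_left hMR))) hz hi
      · intro a ha
        obtain ⟨z, hz, hzM, hza⟩ := hM.cov1 a ha
        exact ⟨z, hzM, hz, hza⟩
  -- failure of guessing
  have hfail : ∀ M : Set (Om I B K), ∃ (i0 : I) (d : BName B), M ∈ S → i0 ∈ ixs M ∧
      Γ ⊓ ((VB B).sub d (A i0) ⊓ (VB B).approx (check (Kap c)) (nameJ A (ixs M)) d ⊓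
        ((VB B).guessed (nameJ A (ixs M)) d)ᶜ) ≠ ⊥ := by
    intro M
    by_cases hM : M ∈ S
    swap
    · exact ⟨iμ, A iμ, fun h => (hM h).elim⟩
    by_contra hcon
    push Not at hcon
    obtain ⟨h1, h2, h3, h4⟩ := hJ M hM
    have h5 : Γ ≤ ⨅ x, ⨅ d, (VB B).mem x (nameJ A (ixs M)) ⊓ (VB B).sub d x ⊓
        (VB B).approx (check (Kap c)) (nameJ A (ixs M)) d ⇨
          (VB B).guessed (nameJ A (ixs M)) d := by
      refine le_iInf fun x => le_iInf fun d => ?_
      rw [le_himp_iff]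
      refine le_of_inf_compl_eq_bot ?_
      rw [eq_bot_iff, VB_mem, mem_nameJ]
      have h6 : Γ ⊓ ((⨆ i : ixs M, beq x (A i)) ⊓ (VB B).sub d x ⊓
          (VB B).approx (check (Kap c)) (nameJ A (ixs M)) d) ⊓
          ((VB B).guessed (nameJ A (ixs M)) d)ᶜ ≤ ⨆ i : ixs M, beq x (A i) ⊓
            (Γ ⊓ ((VB B).sub d x ⊓ (VB B).approx (check (Kap c)) (nameJ A (ixs M)) d ⊓
        ((VB B).guessed (nameJ A (ixs M)) d)ᶜ)) := by
        rw [← iSup_inf_eq]
        refine le_inf ?_ (le_inf ?_ (le_inf (le_inf ?_ ?_) ?_))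
        · exact inf_le_left.trans (inf_le_right.trans (inf_le_left.trans inf_le_left))
        · exact inf_le_left.trans inf_le_left
        · exact inf_le_left.trans (inf_le_right.trans (inf_le_left.trans inf_le_right))
        · exact inf_le_left.trans (inf_le_right.trans inf_le_right)
        · exact inf_le_right
      refine h6.trans (iSup_le fun i => ?_)
      obtain ⟨h7, h8⟩ := hcon i.1 d
      rw [← h8 i.2]
      refine le_inf (inf_le_right.trans inf_le_left) (le_inf (le_inf ?_ ?_) ?_)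
      · exact (ext_sub_right d).of_le (x := x) inf_le_left
          (inf_le_right.trans (inf_le_right.trans (inf_le_left.trans inf_le_left)))
      · exact inf_le_right.trans (inf_le_right.trans (inf_le_left.trans inf_le_right))
      · exact inf_le_right.trans (inf_le_right.trans inf_le_right)
    apply hΓ
    rw [eq_bot_iff, ← hno (nameJ A (ixs M))]
    exact le_inf le_rfl (le_inf h1 (le_inf (le_inf (le_inf h2 h3) h4) h5))
  choose i0 d hd using hfail
  obtain ⟨G, hG1, hG2⟩ := hcore S (fun M hM => ⟨hM.1, uR_right (uR_right hM.2)⟩)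
    (fun M => Γ ⊓ ((VB B).sub (d M) (A (i0 M)) ⊓
      (VB B).approx (check (Kap c)) (nameJ A (ixs M)) (d M) ⊓
        ((VB B).guessed (nameJ A (ixs M)) (d M))ᶜ))
    (fun M i => bmem (A i) (d M)) (fun M hM => (hd M hM).2)
    (fun M _ i j => by
      rw [inf_comm]; exact bmem_congr_left _ _ _)
    (by
      intro M hM z hz hzM p hp hp0
      have hzc : ∀ i ∈ Rψ z, i ∈ ixs M := fun i hi =>
        subR_closed (uR_right (uR_right (uR_left hM.2))) hzM hi
      have hRz : Rψ z = z ∪ {ψ z} := if_pos hz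
      rw [hRz] at hzc
      obtain ⟨p', hp', hp'0, j, hj, hpj⟩ := step_f (c := c) (H := H) (J := ixs M) (z := z)
        (fun i hi => hzc i (Or.inl hi)) hz (hzc (ψ z) (Or.inr rfl)) (hψ z hz)
        (d := d M) (p := p) (hp.trans inf_le_left) hp0
        (hp.trans (inf_le_right.trans (inf_le_left.trans inf_le_right)))
      exact ⟨p', hp', hp'0, _, fnR_closed (uR_left (uR_left (uR_right hM.2))) hj, hpj⟩)
  have hν : ∀ (e : K → Set I) (x : I), ∃ ν, Γ ≤ beq (sepn (A x) fun y => ⨆ i, beq y (A i) ⊓ G e i)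
      (A ν) := fun e x => hA.rep _ (hH.sub Γ le_rfl _ (A x) (by rw [sepn_sub]; exact le_top)
        (hA.mem x))
  choose ν hν using hν
  obtain ⟨M, hM, hMR⟩ := hGS (Kap c) hstd hgmp I B K (by rw [hcard]; exact hK) (uR Rb (labR ν))
    (by rw [hcard]; exact small_uR hs hRb (small_labR hs ν))
  rw [hcard] at hM
  have hMS : M ∈ S := ⟨hM, uR_left hMR⟩
  obtain ⟨e, he, p, hpq, hp0, hpG⟩ := hG2 M hMS
  have h1 : p ≤ (VB B).guessed (nameJ A (ixs M)) (d M) :=
    step_g (c := c) (H := H) (i0 := i0 M) (labR_closed (uR_right hMR) he (hd M hMS).1)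
      (g := G e) (hG1 e) (hν e (i0 M)) (hpq.trans inf_le_left)
      (hpq.trans (inf_le_right.trans (inf_le_left.trans inf_le_left))) (fun i hi => hpG i hi)
  have h2 : p ≤ ((VB B).guessed (nameJ A (ixs M)) (d M))ᶜ :=
    hpq.trans (inf_le_right.trans inf_le_right)
  apply hp0
  rw [eq_bot_iff, ← inf_compl_self ((VB B).guessed (nameJ A (ixs M)) (d M))]
  exact le_inf h1 h2

/-- The preservation theorem for a complete Boolean algebra covered by `κ` many ultrafilters. -/
theorem final_cba (hOrd : OrdStatement.{u}) (hCC : CCStatement.{u}) (h1 : HS1Statement.{u})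
    (h2 : HS2Statement.{u}) (hClos : ClosStatement.{u})
    (hElem : ElemStatement.{u}) (hCL3 : CL3Statement.{u}) (hCore : CoreStatement.{u})
    (hGS : GSStatement.{u}) (κ : ZFSet.{u}) (hstd : V.std κ) (hgmp : V.gmp κ) (K : Type u)
    (hK : #K = κ.card) (U : K → Set B) (hU : ∀ k, IsUlt (U k))
    (hcov : ∀ b : B, b ≠ ⊥ → ∃ k, b ∈ U k) : (VB B).std (check κ) ≤ (VB B).gmp (check κ) := by
  obtain ⟨c, hcr, rfl, -⟩ := (H77.std_iff κ).1 hstd
  have hc : ℵ₀ ≤ c := hcr.aleph0_le
  change (VB B).std (check (Kap c)) ≤ (VB B).gmp (check (Kap c))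
  change V.std (Kap c) at hstd
  change V.gmp (Kap c) at hgmp
  have hcard : (c.ord.toZFSet).card = c := by rw [Ordinal.card_toZFSet, card_ord]
  rw [hcard] at hK
  have hcc : CCov c B := (hCC B c hc).1 K U hK hU hcov
  refine le_iSup_of_le (check (Mu c)) (le_inf ?_ ?_)
  · rw [(hCC B c hc).2 hcc]; exact le_top
  refine le_iInf fun θ => le_iInf fun H => le_iInf fun C => ?_
  rw [le_himp_iff]
  refine le_of_inf_compl_eq_bot ?_
  by_contra hne
  set Γ0 := (VB B).std (check (Kap c)) ⊓ ((VB B).isReg θ ⊓ (VB B).mem (check (Mu c)) θ ⊓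
    (VB B).isH H θ ⊓ (VB B).isClub C H (check (Mu c))) ⊓
      (⨆ M, (VB B).mem M C ⊓ (VB B).isGuess (check (Kap c)) (check (Mu c)) H M)ᶜ with hΓ0
  have hA1 : Γ0 ≤ (VB B).std (check (Kap c)) := inf_le_left.trans inf_le_left
  have hA2 : Γ0 ≤ (VB B).isReg θ := inf_le_left.trans (inf_le_right.trans
    (inf_le_left.trans (inf_le_left.trans inf_le_left)))
  have hA3 : Γ0 ≤ (VB B).mem (check (Mu c)) θ := inf_le_left.trans (inf_le_right.trans
    (inf_le_left.trans (inf_le_left.trans inf_le_right)))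
  have hA4 : Γ0 ≤ (VB B).isH H θ := inf_le_left.trans (inf_le_right.trans
    (inf_le_left.trans inf_le_right))
  have hA5 : Γ0 ≤ (VB B).isClub C H (check (Mu c)) := inf_le_left.trans (inf_le_right.trans
    inf_le_right)
  have hA6 : Γ0 ≤ (⨆ M, (VB B).mem M C ⊓
    (VB B).isGuess (check (Kap c)) (check (Mu c)) H M)ᶜ := inf_le_right
  have hord : Γ0 ≤ ⨆ y : {y : ZFSet.{u} // y.IsOrdinal}, beq θ (check y.1) :=
    (hA2.trans (inf_le_left.trans (inf_le_left.trans inf_le_left))).trans ((hOrd B).1 θ)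
  obtain ⟨⟨Θ, hΘ⟩, hΓ⟩ : ∃ y : {y : ZFSet.{u} // y.IsOrdinal}, Γ0 ⊓ beq θ (check y.1) ≠ ⊥ := by
    by_contra hcon
    push Not at hcon
    apply hne
    rw [eq_bot_iff]
    refine (le_inf le_rfl hord).trans ?_
    rw [inf_iSup_eq]
    exact iSup_le fun y => (hcon y).le
  have hB2 : Γ0 ⊓ beq θ (check Θ) ≤ (VB B).isReg (check Θ) :=
    ext_isReg.of_le (x := θ) inf_le_right (inf_le_left.trans hA2)
  have hB3 : Γ0 ⊓ beq θ (check Θ) ≤ bmem (check (Mu c)) (check Θ) :=
    (ext_mem_right _).of_le (x := θ) inf_le_right (inf_le_left.trans hA3)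
  have hB4 : Γ0 ⊓ beq θ (check Θ) ≤ (VB B).isH H (check Θ) :=
    (ext_isH_right H).of_le (x := θ) inf_le_right (inf_le_left.trans hA4)
  have hreg : V.isReg Θ := (hOrd B).2 Θ fun h => hΓ (le_bot_iff.1 (h ▸ hB2))
  have hmu : Mu c ∈ Θ := by
    by_contra h
    rw [mem_check_of_not_mem h] at hB3
    exact hΓ (le_bot_iff.1 hB3)
  have hH := h2 B c hc _ H (h1 B c hc hcc _ H Θ hreg hmu hB4)
  refine main_step hClos hElem hCL3 hCore hGS c hc hstd hgmp hcc K hK U hU hcov _ hΓ H C hH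
    (inf_le_left.trans hA1) (inf_le_left.trans hA5) fun M => ?_
  rw [eq_bot_iff]
  refine le_trans (le_inf (inf_le_right.trans (le_iSup (fun M => (VB B).mem M C ⊓
    (VB B).isGuess (check (Kap c)) (check (Mu c)) H M) M))
    (inf_le_left.trans (inf_le_left.trans hA6))) (inf_compl_self _).le

end Pool.Agent.Lib.MP_100a6c_lc.H54
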