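import Pool.Agent.Lib.MP_100a6c_lc.H1.RO
import Pool.Agent.Lib.MP_100a6c_lc.H19.HS1
import Pool.Agent.Lib.MP_100a6c_lc.H36.Core
import Pool.Agent.Lib.MP_100a6c_lc.H47.CL1
import Pool.Agent.Lib.MP_100a6c_lc.H54.CL3
import Pool.Agent.Lib.MP_100a6c_lc.H54.Clos
import Pool.Agent.Lib.MP_100a6c_lc.H54.Final
import Pool.Agent.Lib.MP_100a6c_lc.H57.VA
import Pool.Agent.Lib.MP_100a6c_lc.H61.CC
import Pool.Agent.Lib.MP_100a6c_lc.H62.GSMod
import Pool.Agent.Lib.MP_100a6c_lc.H67.Elem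
import Pool.Agent.Lib.MP_100a6c_lc.H68.Ord
import Pool.Agent.Lib.MP_100a6c_lc.H77.EnumMod
import Pool.Agent.Lib.MP_100a6c_lc.H77.HS2Mod
import Pool.Agent.Lib.MP_100a6c_lc.H80.CL2

/-!
# The preservation theorem
-/

universe u

open Cardinal

namespace Pool.Agent.Lib.MP_100a6c_lc.H54

open BName

theorem gs : GSStatement.{u} := H62.gs H77.v1 (H57.va H77.v1)

/-- `GMP` is preserved by every `κ⁺`-centered forcing keeping `κ^{<κ} = κ`. -/
theorem preserved (κ : ZFSet.{u}) (P : Type u) [Preorder P] (hstd : V.std κ) (hgmp : V.gmp κ)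
    (hP : Centered κ P) : (VB (H1.RO P)).std (check κ) ≤ (VB (H1.RO P)).gmp (check κ) := by
  rcases isEmpty_or_nonempty P with hE | hE
  · have h1 : Subsingleton (LowerSet P) := ⟨fun a b => by ext x; exact hE.elim x⟩
    have h2 : Subsingleton (H1.RO P) := ⟨fun a b => Subtype.ext (Subsingleton.elim _ _)⟩
    exact (Subsingleton.elim _ _).le
  obtain ⟨U, hU, hcov⟩ := H1.centered_ult κ P hP (Quotient.out κ.card) (Cardinal.mk_out _)
  exact final_cba H68.ord H61.cc H19.hs1 H77.hs2 (clos H77.enum) H67.elemStatement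
    (cl3 H47.cl1 H80.cl2) H36.core gs κ hstd hgmp _ (Cardinal.mk_out _) U hU hcov

end Pool.Agent.Lib.MP_100a6c_lc.H54
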